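import Mathlib

/-!
# Pencils of polynomials

If `A` and `B` are coprime polynomials over a field of characteristic zero whose Wronskian is not
zero then `A + t B` is separable for all but finitely many `t`.
-/

set_option autoImplicit false

open Polynomial Filter

namespace Pool.Agent.U60.HL

/-- All but finitely many members of a pencil are separable. -/
theorem pencil_finite {A B : ℚ[X]} (hc : IsCoprime A B)
    (hW : A * derivative B - derivative A * B ≠ 0) :
    {t : ℚ | ¬ (A + C t * B).Separable}.Finite := by
  classical
  set W := A * derivative B - derivative A * B with hWdef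
  have key : ∀ t ∈ {t : ℚ | ¬ (A + C t * B).Separable},
      ∃ p ∈ (UniqueFactorizationMonoid.normalizedFactors W).toFinset, p ∣ A + C t * B := by
    intro t ht
    have ht' : ¬ IsCoprime (A + C t * B) (derivative (A + C t * B)) := ht
    have hne : A + C t * B ≠ 0 ∨ derivative (A + C t * B) ≠ 0 := by
      by_contra hcon
      push Not at hcon
      apply hW
      have h1 : A = - (C t * B) := by linear_combination hcon.1
      rw [hWdef, h1]
      simp only [derivative_neg, derivative_mul, derivative_C, zero_mul, zero_add]
      ring
    have hex : ∃ p : ℚ[X], Irreducible p ∧ p ∣ A + C t * B ∧ p ∣ derivative (A + C t * B) := by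
      by_contra hcon
      push Not at hcon
      apply ht'
      apply isCoprime_of_irreducible_dvd
      · rintro ⟨h1, h2⟩
        rcases hne with h | h
        · exact h h1
        · exact h h2
      · intro z hz h1 h2
        exact hcon z hz h1 h2
    obtain ⟨p, hp, h1, h2⟩ := hex
    have hd : p ∣ W := by
      have h3 : W = (A + C t * B) * derivative B - derivative (A + C t * B) * B := by
        rw [hWdef]
        simp only [derivative_add, derivative_mul, derivative_C, zero_mul, zero_add]
        ring
      rw [h3]
      exact dvd_sub (h1.mul_right _) (h2.mul_right _)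
    obtain ⟨q, hq, hpq⟩ := UniqueFactorizationMonoid.exists_mem_normalizedFactors_of_dvd hW hp hd
    exact ⟨q, Multiset.mem_toFinset.2 hq, hpq.symm.dvd.trans h1⟩
  choose! φ hφ1 hφ2 using key
  refine Set.Finite.of_finite_image (f := φ)
    ((UniqueFactorizationMonoid.normalizedFactors W).toFinset.finite_toSet.subset ?_) ?_
  · rintro _ ⟨t, ht, rfl⟩
    exact hφ1 t ht
  · intro t ht u hu htu
    by_contra hne
    have h1 := hφ2 t ht
    have h2 := hφ2 u hu
    rw [← htu] at h2
    have hirr : Irreducible (φ t) :=
      UniqueFactorizationMonoid.irreducible_of_normalized_factor _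
        (Multiset.mem_toFinset.1 (hφ1 t ht))
    have h3 : φ t ∣ C (t - u) * B := by
      have h4 : C (t - u) * B = (A + C t * B) - (A + C u * B) := by
        rw [C_sub]
        ring
      rw [h4]
      exact dvd_sub h1 h2
    have hu' : IsUnit (C (t - u)) := isUnit_C.2 (isUnit_iff_ne_zero.2 (sub_ne_zero.2 hne))
    have h5 : φ t ∣ B := (hu'.dvd_mul_left).1 h3
    have h6 : φ t ∣ A := by
      have h7 : A = (A + C t * B) - C t * B := by ring
      rw [h7]
      exact dvd_sub h1 (h5.mul_left _)
    exact hirr.not_isUnit (hc.isUnit_of_dvd' h6 h5)

/-- The members of a pencil along an injective sequence are finally separable. -/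
theorem pencil_eventually {A B : ℚ[X]} (hc : IsCoprime A B)
    (hW : A * derivative B - derivative A * B ≠ 0) {u : ℕ → ℚ} (hu : Function.Injective u) :
    ∀ᶠ s in atTop, (A + C (u s) * B).Separable := by
  have h := (pencil_finite hc hW).compl_mem_cofinite
  have h2 := hu.tendsto_cofinite h
  rw [Nat.cofinite_eq_atTop] at h2
  filter_upwards [h2] with s hs
  by_contra hcon
  exact hs hcon

end Pool.Agent.U60.HL
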