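import Mathlib
import Pool.Agent.U60.HL.Pencil

/-!
# Large integral points

From families of polynomials with large integral points to lower bounds for the constants.
-/

set_option autoImplicit false

open Polynomial Filter

namespace Pool.Agent.U60.HL

/-- the largest absolute value of a coefficient -/
def maxCoeff (f : ℤ[X]) : ℕ := f.support.sup (fun i => (f.coeff i).natAbs)

/-- `C₁` and `C₂` are admissible constants of the conjecture of Hall, Lang and Vojta for the
degree `d`. -/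
def Admissible (d : ℕ) (C₁ C₂ : ℝ) : Prop :=
  ∀ f : ℤ[X], f.natDegree = d → (f.map (Int.castRingHom ℚ)).Separable →
    ∀ x y : ℤ, y ^ 2 = f.eval x →
      Real.log (max |(x : ℝ)| 1) ≤ C₁ * Real.log (max (maxCoeff f : ℝ) 1) + C₂

/-- For some `c > 0` and for every large `H` there are a polynomial `f` of degree `d` without
repeated roots and with coefficients at most `H` in absolute value and an integral point `(x, y)`
of `y² = f(x)` with `|x| ≥ c H ^ e`. -/
def LargePoints (d e : ℕ) : Prop :=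
  ∃ c : ℝ, 0 < c ∧ ∀ᶠ H : ℕ in atTop, ∃ f : ℤ[X], f.natDegree = d ∧
    (f.map (Int.castRingHom ℚ)).Separable ∧ maxCoeff f ≤ H ∧
    ∃ x y : ℤ, y ^ 2 = f.eval x ∧ c * (H : ℝ) ^ e ≤ |(x : ℝ)|

/-- Large points give lower bounds for the constant. -/
theorem le_of_admissible {d e : ℕ} (he : 1 ≤ e) (h : LargePoints d e) {C₁ C₂ : ℝ}
    (hC : Admissible d C₁ C₂) : (e : ℝ) ≤ C₁ := by
  obtain ⟨c, hc, hH⟩ := h
  have hmain : (e : ℝ) ≤ max C₁ 0 := by
    by_contra hcon
    push Not at hcon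
    have hlog : Tendsto (fun H : ℕ => Real.log (H : ℝ)) atTop atTop :=
      Real.tendsto_log_atTop.comp tendsto_natCast_atTop_atTop
    have h1 := hlog.eventually_gt_atTop ((C₂ - Real.log c) / ((e : ℝ) - max C₁ 0))
    obtain ⟨H, hH1, hH2, hH3⟩ := (hH.and (h1.and (eventually_ge_atTop 1))).exists
    obtain ⟨f, hf1, hf2, hf3, x, y, hxy, hx⟩ := hH1
    have hHr : (1 : ℝ) ≤ H := by exact_mod_cast hH3
    have h2 := hC f hf1 hf2 x y hxy
    have h3 : Real.log (c * (H : ℝ) ^ e) ≤ Real.log (max |(x : ℝ)| 1) := by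
      apply Real.log_le_log (by positivity)
      exact hx.trans (le_max_left _ _)
    rw [Real.log_mul hc.ne' (by positivity), Real.log_pow] at h3
    have h4 : Real.log (max (maxCoeff f : ℝ) 1) ≤ Real.log H := by
      apply Real.log_le_log (lt_of_lt_of_le one_pos (le_max_right _ _))
      exact max_le (by exact_mod_cast hf3) hHr
    have h5 : 0 ≤ Real.log (max (maxCoeff f : ℝ) 1) := Real.log_nonneg (le_max_right _ _)
    have h6 : C₁ * Real.log (max (maxCoeff f : ℝ) 1) ≤ max C₁ 0 * Real.log H :=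
      (mul_le_mul_of_nonneg_right (le_max_left _ _) h5).trans
        (mul_le_mul_of_nonneg_left h4 (le_max_right _ _))
    have h7 : 0 < (e : ℝ) - max C₁ 0 := by linarith
    rw [div_lt_iff₀ h7] at hH2
    nlinarith
  rcases le_total C₁ 0 with h0 | h0
  · rw [max_eq_right h0] at hmain
    have : (1 : ℝ) ≤ e := by exact_mod_cast he
    linarith
  · rwa [max_eq_left h0] at hmain

/-- Large points from a family with a parameter `s`. -/
theorem largePoints_of_family {d e n K : ℕ} (hn : 0 < n) (hK : 0 < K) {k : ℝ} (hk : 0 < k)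
    (h : ∀ᶠ s : ℕ in atTop, ∃ f : ℤ[X], f.natDegree = d ∧
      (f.map (Int.castRingHom ℚ)).Separable ∧ maxCoeff f ≤ K * s ^ n ∧
      ∃ x y : ℤ, y ^ 2 = f.eval x ∧ k * (s : ℝ) ^ (n * e) ≤ |(x : ℝ)|) : LargePoints d e := by
  classical
  refine ⟨k / (K * 2 ^ n : ℝ) ^ e, by positivity, ?_⟩
  obtain ⟨s₀, hs₀⟩ := eventually_atTop.1 h
  filter_upwards [eventually_ge_atTop (K * (s₀ + 1) ^ n + s₀ + 1)] with H hH
  set s := Nat.findGreatest (fun s => K * s ^ n ≤ H) H with hs
  have h1 : K * s ^ n ≤ H := by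
    have := Nat.findGreatest_spec (P := fun s => K * s ^ n ≤ H) (n := H) (m := 0) (Nat.zero_le _)
      (by simp [hn.ne'])
    simpa [hs] using this
  have h2 : s₀ + 1 ≤ s := by
    apply Nat.le_findGreatest
    · omega
    · show K * (s₀ + 1) ^ n ≤ H
      omega
  have h3 : H < K * (s + 1) ^ n := by
    by_contra hcon
    push Not at hcon
    have h4 : s + 1 ≤ H := by
      have h5 : s + 1 ≤ (s + 1) ^ n := Nat.le_self_pow hn.ne' _
      have h6 : (s + 1) ^ n ≤ K * (s + 1) ^ n := Nat.le_mul_of_pos_left _ hK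
      omega
    have h7 : s + 1 ≤ Nat.findGreatest (fun s => K * s ^ n ≤ H) H := Nat.le_findGreatest h4 hcon
    omega
  obtain ⟨f, hf1, hf2, hf3, x, y, hxy, hx⟩ := hs₀ s (by omega)
  refine ⟨f, hf1, hf2, hf3.trans h1, x, y, hxy, le_trans ?_ hx⟩
  have hsr : (1 : ℝ) ≤ s := by
    have : 1 ≤ s := by omega
    exact_mod_cast this
  have h8 : (H : ℝ) ≤ (K * 2 ^ n) * (s : ℝ) ^ n := by
    have h9 : (H : ℝ) ≤ K * ((s : ℝ) + 1) ^ n := by exact_mod_cast h3.le
    refine h9.trans ?_
    rw [mul_assoc, ← mul_pow]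
    gcongr
    linarith
  have h10 : (H : ℝ) ^ e ≤ ((K * 2 ^ n : ℝ)) ^ e * (s : ℝ) ^ (n * e) := by
    rw [pow_mul, ← mul_pow]
    gcongr
  have h11 : (0 : ℝ) < (K * 2 ^ n : ℝ) ^ e := by positivity
  calc k / (K * 2 ^ n : ℝ) ^ e * (H : ℝ) ^ e
      ≤ k / (K * 2 ^ n : ℝ) ^ e * (((K * 2 ^ n : ℝ)) ^ e * (s : ℝ) ^ (n * e)) := by gcongr
    _ = k * (s : ℝ) ^ (n * e) := by
      rw [div_mul_eq_mul_div, ← mul_assoc, mul_div_assoc]
      field_simp

/-- The coefficients of `f` are bounded by those of the definition. -/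
theorem maxCoeff_le {f : ℤ[X]} {H : ℕ} (h : ∀ i, (f.coeff i).natAbs ≤ H) : maxCoeff f ≤ H :=
  Finset.sup_le fun i _ => h i

end Pool.Agent.U60.HL
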