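import Mathlib
import Pool.Agent.U60.HL.Large

/-!
# Families of curves with large integral points
-/

set_option autoImplicit false

open Polynomial Filter

namespace Pool.Agent.U60.HL

/-! ### Degree `4 j + 3` and `4 j + 4` -/

/-- `x ^ (4 j + 3) + 4 q x ^ (3 j + 2) - 8 x ^ (j + 1) + 4 q` -/
noncomputable def P1 (j : ℕ) (q : ℤ) : ℤ[X] :=
  (X ^ (4 * j + 3) - C 8 * X ^ (j + 1)) + C q * (C 4 * X ^ (3 * j + 2) + C 4)

/-- `4 q x ^ (4 j + 5) - 8 x ^ (3 j + 4) + 4 q x ^ (j + 1) + 1` -/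
noncomputable def P2 (j : ℕ) (q : ℤ) : ℤ[X] :=
  (C 1 - C 8 * X ^ (3 * j + 4)) + C q * (C 4 * X ^ (4 * j + 5) + C 4 * X ^ (j + 1))

/-- `q (4 x ^ 3 + 5 x ^ 2 + 4 x + 4) + 4 (x ^ 2 - x - 2)` -/
noncomputable def P3 (q : ℤ) : ℤ[X] :=
  (C 4 * X ^ 2 - C 4 * X - C 8) + C q * (C 4 * X ^ 3 + C 5 * X ^ 2 + C 4 * X + C 4)

theorem P1_coeff (j : ℕ) (q : ℤ) (i : ℕ) : (P1 j q).coeff i =
    (if i = 4 * j + 3 then 1 else 0) - 8 * (if i = j + 1 then 1 else 0) +
      q * (4 * (if i = 3 * j + 2 then 1 else 0) + if i = 0 then 4 else 0) := by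
  simp only [P1, coeff_add, coeff_sub, coeff_C_mul, coeff_X_pow, coeff_C]

theorem P2_coeff (j : ℕ) (q : ℤ) (i : ℕ) : (P2 j q).coeff i =
    ((if i = 0 then 1 else 0) - 8 * (if i = 3 * j + 4 then 1 else 0)) +
      q * (4 * (if i = 4 * j + 5 then 1 else 0) + 4 * (if i = j + 1 then 1 else 0)) := by
  simp only [P2, coeff_add, coeff_sub, coeff_C_mul, coeff_X_pow, coeff_C]

theorem P1_natDegree (j : ℕ) (q : ℤ) : (P1 j q).natDegree = 4 * j + 3 := by
  apply natDegree_eq_of_le_of_coeff_ne_zero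
  · rw [natDegree_le_iff_coeff_eq_zero]
    intro N hN
    rw [P1_coeff, if_neg (by omega), if_neg (by omega), if_neg (by omega), if_neg (by omega)]
    ring
  · rw [P1_coeff, if_pos rfl, if_neg (by omega), if_neg (by omega), if_neg (by omega)]
    simp

theorem P2_natDegree (j : ℕ) {q : ℤ} (hq : q ≠ 0) : (P2 j q).natDegree = 4 * j + 5 := by
  apply natDegree_eq_of_le_of_coeff_ne_zero
  · rw [natDegree_le_iff_coeff_eq_zero]
    intro N hN
    rw [P2_coeff, if_neg (by omega), if_neg (by omega), if_neg (by omega), if_neg (by omega)]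
    ring
  · rw [P2_coeff, if_neg (by omega), if_neg (by omega), if_pos rfl, if_neg (by omega)]
    simp [hq]

theorem P3_natDegree {q : ℤ} (hq : q ≠ 0) : (P3 q).natDegree = 3 := by
  apply natDegree_eq_of_le_of_coeff_ne_zero
  · rw [natDegree_le_iff_coeff_eq_zero]
    intro N hN
    simp only [P3, coeff_add, coeff_sub, coeff_C_mul, coeff_X_pow, coeff_C, coeff_X]
    split_ifs <;> omega
  · simp only [P3, coeff_add, coeff_sub, coeff_C_mul, coeff_X_pow, coeff_C, coeff_X]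
    simp [hq]

theorem P1_height (j : ℕ) {s : ℕ} (hs : 1 ≤ s) (i : ℕ) :
    ((P1 j ((s : ℤ) ^ 2)).coeff i).natAbs ≤ 17 * s ^ 2 := by
  rw [P1_coeff]
  have h1 : 1 ≤ s ^ 2 := Nat.one_le_pow _ _ hs
  have h2 : ((s : ℤ) ^ 2) = ((s ^ 2 : ℕ) : ℤ) := by push_cast; rfl
  rw [h2]
  generalize s ^ 2 = q at *
  split_ifs <;> omega

theorem P2_height (j : ℕ) {s : ℕ} (hs : 1 ≤ s) (i : ℕ) :
    ((P2 j ((s : ℤ) ^ 2)).coeff i).natAbs ≤ 17 * s ^ 2 := by
  rw [P2_coeff]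
  have h1 : 1 ≤ s ^ 2 := Nat.one_le_pow _ _ hs
  have h2 : ((s : ℤ) ^ 2) = ((s ^ 2 : ℕ) : ℤ) := by push_cast; rfl
  rw [h2]
  generalize s ^ 2 = q at *
  split_ifs <;> omega

theorem P3_height {s : ℕ} (hs : 1 ≤ s) (i : ℕ) :
    ((P3 ((s : ℤ) ^ 2)).coeff i).natAbs ≤ 40 * s ^ 2 := by
  simp only [P3, coeff_add, coeff_sub, coeff_C_mul, coeff_X_pow, coeff_C, coeff_X]
  have h1 : 1 ≤ s ^ 2 := Nat.one_le_pow _ _ hs
  have h2 : ((s : ℤ) ^ 2) = ((s ^ 2 : ℕ) : ℤ) := by push_cast; rfl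
  rw [h2]
  generalize s ^ 2 = q at *
  split_ifs <;> omega

theorem P1_point (j : ℕ) (s : ℤ) :
    (s ^ (12 * j + 9) + 2 * s ^ (6 * j + 5) - 2 * s) ^ 2 = (P1 j (s ^ 2)).eval (s ^ 6) := by
  simp only [P1, eval_add, eval_sub, eval_mul, eval_C, eval_pow, eval_X]
  ring

theorem P2_point (j : ℕ) (s : ℤ) :
    (1 + 2 * s ^ (6 * j + 8) - 2 * s ^ (12 * j + 16)) ^ 2 = (P2 j (s ^ 2)).eval (s ^ 6) := by
  simp only [P2, eval_add, eval_sub, eval_mul, eval_C, eval_pow, eval_X]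
  ring

theorem P3_point (s : ℤ) :
    (s * (16 * s ^ 18 - 168 * s ^ 16 + 780 * s ^ 14 - 2090 * s ^ 12 + 3516 * s ^ 10
      - 3759 * s ^ 8 + 2432 * s ^ 6 - 807 * s ^ 4 + 60 * s ^ 2 + 19)) ^ 2 =
    (P3 (s ^ 2)).eval (4 * s ^ 12 - 28 * s ^ 10 + 81 * s ^ 8 - 122 * s ^ 6 + 95 * s ^ 4
      - 30 * s ^ 2 - 1) := by
  simp only [P3, eval_add, eval_sub, eval_mul, eval_C, eval_pow, eval_X]
  ring

theorem XP1_point (j : ℕ) (s : ℤ) :
    (s ^ 3 * (s ^ (12 * j + 9) + 2 * s ^ (6 * j + 5) - 2 * s)) ^ 2 =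
      (X * P1 j (s ^ 2)).eval (s ^ 6) := by
  rw [eval_mul, eval_X, ← P1_point]
  ring

theorem XP2_point (j : ℕ) (s : ℤ) :
    (s ^ 3 * (1 + 2 * s ^ (6 * j + 8) - 2 * s ^ (12 * j + 16))) ^ 2 =
      (X * P2 j (s ^ 2)).eval (s ^ 6) := by
  rw [eval_mul, eval_X, ← P2_point]
  ring

theorem sq_injective : Function.Injective (fun s : ℕ => ((s : ℚ) ^ 2)) := by
  intro a b h
  have h2 : ((a ^ 2 : ℕ) : ℚ) = ((b ^ 2 : ℕ) : ℚ) := by push_cast; exact h
  have h3 : a ^ 2 = b ^ 2 := by exact_mod_cast h2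
  exact Nat.pow_left_injective (n := 2) (by norm_num) h3

theorem P1_separable (j : ℕ) : ∀ᶠ s : ℕ in atTop,
    ((P1 j ((s : ℤ) ^ 2)).map (Int.castRingHom ℚ)).Separable := by
  have hc : IsCoprime (X ^ (4 * j + 3) - C 8 * X ^ (j + 1) : ℚ[X])
      (C 4 * X ^ (3 * j + 2) + C 4) := by
    have e1 : (X ^ (4 * j + 3) - C 8 * X ^ (j + 1) : ℚ[X]) =
        X ^ (j + 1) * (X ^ (3 * j + 2) - C 8) := by ring
    have e2 : (C 4 * X ^ (3 * j + 2) + C 4 : ℚ[X]) = C 4 * (X ^ (3 * j + 2) + 1) := by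
      rw [mul_add, mul_one]
    rw [e1, e2]
    have hu : IsUnit (C 4 : ℚ[X]) := isUnit_C.2 (isUnit_iff_ne_zero.2 (by norm_num))
    rw [isCoprime_mul_unit_left_right hu]
    apply IsCoprime.mul_left
    · refine ⟨- X ^ (2 * j + 1), 1, ?_⟩
      ring
    · refine ⟨- C (1 / 9), C (1 / 9), ?_⟩
      have h9 : (C (1 / 9) * (C 8 + 1) : ℚ[X]) = 1 := by
        rw [← C_1, ← C_add, ← C_mul]
        norm_num
      calc -C (1 / 9) * (X ^ (3 * j + 2) - C 8) + C (1 / 9) * (X ^ (3 * j + 2) + 1)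
          = (C (1 / 9) * (C 8 + 1) : ℚ[X]) := by ring
        _ = 1 := h9
  have hW : (X ^ (4 * j + 3) - C 8 * X ^ (j + 1) : ℚ[X]) *
      derivative (C 4 * X ^ (3 * j + 2) + C 4) -
      derivative (X ^ (4 * j + 3) - C 8 * X ^ (j + 1) : ℚ[X]) *
        (C 4 * X ^ (3 * j + 2) + C 4) ≠ 0 := by
    intro h0
    have h1 := congrArg (eval (1 : ℚ)) h0
    simp only [derivative_add, derivative_sub, derivative_mul, derivative_C, derivative_X_pow,
      eval_add, eval_sub, eval_mul, eval_C, eval_pow, eval_X, eval_zero,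
      one_pow] at h1
    push_cast at h1
    have hj : (0 : ℚ) ≤ j := Nat.cast_nonneg j
    nlinarith
  filter_upwards [pencil_eventually hc hW sq_injective] with s hs
  have h8 : (C 8 : ℚ[X]) = 8 := map_ofNat C 8
  have h4 : (C 4 : ℚ[X]) = 4 := map_ofNat C 4
  convert hs using 1
  simp [P1, h8, h4]

theorem P2_separable (j : ℕ) : ∀ᶠ s : ℕ in atTop,
    ((P2 j ((s : ℤ) ^ 2)).map (Int.castRingHom ℚ)).Separable := by
  have hc : IsCoprime (C 1 - C 8 * X ^ (3 * j + 4) : ℚ[X])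
      (C 4 * X ^ (4 * j + 5) + C 4 * X ^ (j + 1)) := by
    have e2 : (C 4 * X ^ (4 * j + 5) + C 4 * X ^ (j + 1) : ℚ[X]) =
        C 4 * (X ^ (j + 1) * (X ^ (3 * j + 4) + 1)) := by ring
    rw [e2]
    have hu : IsUnit (C 4 : ℚ[X]) := isUnit_C.2 (isUnit_iff_ne_zero.2 (by norm_num))
    rw [isCoprime_mul_unit_left_right hu]
    apply IsCoprime.mul_right
    · refine ⟨1, C 8 * X ^ (2 * j + 3), ?_⟩
      rw [C_1]
      ring
    · refine ⟨C (1 / 9), C (8 / 9), ?_⟩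
      have h9 : (C (1 / 9) + C (8 / 9) : ℚ[X]) = 1 := by
        rw [← C_1, ← C_add]
        norm_num
      have h8 : (C (8 / 9) : ℚ[X]) = C (1 / 9) * C 8 := by
        rw [← C_mul]
        norm_num
      calc C (1 / 9) * (C 1 - C 8 * X ^ (3 * j + 4)) + C (8 / 9) * (X ^ (3 * j + 4) + 1)
          = (C (1 / 9) + C (8 / 9) : ℚ[X]) := by rw [h8, C_1]; ring
        _ = 1 := h9
  have hW : (C 1 - C 8 * X ^ (3 * j + 4) : ℚ[X]) *
      derivative (C 4 * X ^ (4 * j + 5) + C 4 * X ^ (j + 1)) -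
      derivative (C 1 - C 8 * X ^ (3 * j + 4) : ℚ[X]) *
        (C 4 * X ^ (4 * j + 5) + C 4 * X ^ (j + 1)) ≠ 0 := by
    intro h0
    have h1 := congrArg (eval (1 : ℚ)) h0
    simp only [derivative_add, derivative_sub, derivative_mul, derivative_C, derivative_X_pow,
      eval_add, eval_sub, eval_mul, eval_C, eval_pow, eval_X, eval_zero,
      one_pow] at h1
    push_cast at h1
    have hj : (0 : ℚ) ≤ j := Nat.cast_nonneg j
    nlinarith
  filter_upwards [pencil_eventually hc hW sq_injective] with s hs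
  have h8 : (C 8 : ℚ[X]) = 8 := map_ofNat C 8
  have h4 : (C 4 : ℚ[X]) = 4 := map_ofNat C 4
  convert hs using 1
  simp [P2, h8, h4]

theorem P3_separable : ∀ᶠ s : ℕ in atTop,
    ((P3 ((s : ℤ) ^ 2)).map (Int.castRingHom ℚ)).Separable := by
  have h8 : (C 8 : ℚ[X]) = 8 := map_ofNat C 8
  have h5 : (C 5 : ℚ[X]) = 5 := map_ofNat C 5
  have h4 : (C 4 : ℚ[X]) = 4 := map_ofNat C 4
  have hc : IsCoprime (C 4 * X ^ 2 - C 4 * X - C 8 : ℚ[X])
      (C 4 * X ^ 3 + C 5 * X ^ 2 + C 4 * X + C 4) := by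
    have e1 : (C 4 * X ^ 2 - C 4 * X - C 8 : ℚ[X]) = C 4 * ((X + 1) * (X - 2)) := by
      rw [h8, h4]
      ring
    rw [e1, isCoprime_mul_unit_left_left (isUnit_C.2 (isUnit_iff_ne_zero.2 (by norm_num)))]
    apply IsCoprime.mul_left
    · refine ⟨- (4 * X ^ 2 + X + 3), 1, ?_⟩
      rw [h5, h4]
      ring
    · refine ⟨- (C (1 / 64) * (4 * X ^ 2 + 13 * X + 30)), C (1 / 64), ?_⟩
      have h64 : (C (1 / 64) * 64 : ℚ[X]) = 1 := by
        rw [← map_ofNat C 64, ← C_mul, ← C_1]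
        norm_num
      calc -(C (1 / 64) * (4 * X ^ 2 + 13 * X + 30)) * (X - 2) +
            C (1 / 64) * (C 4 * X ^ 3 + C 5 * X ^ 2 + C 4 * X + C 4)
          = (C (1 / 64) * 64 : ℚ[X]) := by rw [h5, h4]; ring
        _ = 1 := h64
  have hW : (C 4 * X ^ 2 - C 4 * X - C 8 : ℚ[X]) *
      derivative (C 4 * X ^ 3 + C 5 * X ^ 2 + C 4 * X + C 4) -
      derivative (C 4 * X ^ 2 - C 4 * X - C 8 : ℚ[X]) *
        (C 4 * X ^ 3 + C 5 * X ^ 2 + C 4 * X + C 4) ≠ 0 := by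
    intro h0
    have h1 := congrArg (eval (0 : ℚ)) h0
    simp only [derivative_add, derivative_sub, derivative_mul, derivative_C, derivative_X_pow,
      derivative_X, eval_add, eval_sub, eval_mul, eval_C, eval_pow, eval_X, eval_zero] at h1
    norm_num at h1
  filter_upwards [pencil_eventually hc hW sq_injective] with s hs
  convert hs using 1
  simp [P3, h8, h5, h4]

/-- Multiplication by `x`. -/
theorem X_mul_separable {f : ℤ[X]} (h : (f.map (Int.castRingHom ℚ)).Separable)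
    (h0 : f.coeff 0 ≠ 0) : ((X * f).map (Int.castRingHom ℚ)).Separable := by
  rw [Polynomial.map_mul, map_X]
  refine Separable.mul separable_X h ?_
  have hirr : Irreducible (X : ℚ[X]) := irreducible_X
  refine (hirr.coprime_iff_not_dvd).2 ?_
  rw [X_dvd_iff, coeff_map]
  simpa using h0

theorem X_mul_height {f : ℤ[X]} {H : ℕ} (h : ∀ i, (f.coeff i).natAbs ≤ H) (i : ℕ) :
    ((X * f).coeff i).natAbs ≤ H := by
  cases i with
  | zero => simp
  | succ n => rw [coeff_X_mul]; exact h n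

theorem X_mul_natDegree {f : ℤ[X]} (h0 : f.coeff 0 ≠ 0) :
    (X * f).natDegree = f.natDegree + 1 := by
  have hf : f ≠ 0 := by rintro rfl; simp at h0
  rw [natDegree_X_mul hf]

theorem abs_pow_cast (s n : ℕ) : |(((s : ℤ) ^ n : ℤ) : ℝ)| = (s : ℝ) ^ n := by
  push_cast
  exact abs_of_nonneg (by positivity)

/-- For every degree at least three there are integral points of size `M(f) ^ 3`. -/
theorem large_three (d : ℕ) (hd : 3 ≤ d) : LargePoints d 3 := by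
  obtain ⟨j, r, hr, hdr⟩ : ∃ j r : ℕ, r < 4 ∧ d = 4 * j + 3 + r :=
    ⟨(d - 3) / 4, (d - 3) % 4, Nat.mod_lt _ (by norm_num), by omega⟩
  apply largePoints_of_family (n := 2) (K := 17) (k := 1) (by norm_num) (by norm_num) one_pos
  have hpt : ∀ s : ℕ, (1 : ℝ) * (s : ℝ) ^ (2 * 3) ≤ |(((s : ℤ) ^ 6 : ℤ) : ℝ)| := by
    intro s
    rw [abs_pow_cast, one_mul]
  obtain rfl | rfl | rfl | rfl : r = 0 ∨ r = 1 ∨ r = 2 ∨ r = 3 := by omega
  · filter_upwards [P1_separable j, eventually_ge_atTop 1] with s hs hs1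
    exact ⟨P1 j ((s : ℤ) ^ 2), by rw [P1_natDegree, hdr], hs, maxCoeff_le (P1_height j hs1),
      (s : ℤ) ^ 6, _, P1_point j s, hpt s⟩
  · filter_upwards [P1_separable j, eventually_ge_atTop 1] with s hs hs1
    have h0 : (P1 j ((s : ℤ) ^ 2)).coeff 0 ≠ 0 := by
      rw [P1_coeff, if_neg (by omega), if_neg (by omega), if_neg (by omega), if_pos rfl]
      have : (0 : ℤ) < (s : ℤ) ^ 2 := by positivity
      intro h
      linarith
    exact ⟨X * P1 j ((s : ℤ) ^ 2), by rw [X_mul_natDegree h0, P1_natDegree, hdr],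
      X_mul_separable hs h0, maxCoeff_le (X_mul_height (P1_height j hs1)),
      (s : ℤ) ^ 6, _, XP1_point j s, hpt s⟩
  · filter_upwards [P2_separable j, eventually_ge_atTop 1] with s hs hs1
    have hq : ((s : ℤ) ^ 2) ≠ 0 := by positivity
    exact ⟨P2 j ((s : ℤ) ^ 2), by rw [P2_natDegree j hq, hdr], hs, maxCoeff_le (P2_height j hs1),
      (s : ℤ) ^ 6, _, P2_point j s, hpt s⟩
  · filter_upwards [P2_separable j, eventually_ge_atTop 1] with s hs hs1
    have hq : ((s : ℤ) ^ 2) ≠ 0 := by positivity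
    have h0 : (P2 j ((s : ℤ) ^ 2)).coeff 0 ≠ 0 := by
      rw [P2_coeff, if_pos rfl, if_neg (by omega), if_neg (by omega), if_neg (by omega)]
      norm_num
    exact ⟨X * P2 j ((s : ℤ) ^ 2), by rw [X_mul_natDegree h0, P2_natDegree j hq, hdr],
      X_mul_separable hs h0, maxCoeff_le (X_mul_height (P2_height j hs1)),
      (s : ℤ) ^ 6, _, XP2_point j s, hpt s⟩

/-- For cubic polynomials there are integral points of size `M(f) ^ 6`. -/
theorem large_six : LargePoints 3 6 := by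
  apply largePoints_of_family (n := 2) (K := 40) (k := 1) (by norm_num) (by norm_num) one_pos
  filter_upwards [P3_separable, eventually_ge_atTop 5] with s hs hs1
  have hq : ((s : ℤ) ^ 2) ≠ 0 := by positivity
  refine ⟨P3 ((s : ℤ) ^ 2), P3_natDegree hq, hs, maxCoeff_le (P3_height (by omega)), _, _,
    P3_point s, ?_⟩
  push_cast
  refine le_trans ?_ (le_abs_self _)
  have h2 : (5 : ℝ) ≤ s := by exact_mod_cast hs1
  obtain ⟨u, hu⟩ : ∃ u : ℝ, u = (s : ℝ) ^ 2 := ⟨_, rfl⟩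
  have hu25 : 25 ≤ u := by rw [hu]; nlinarith
  have e : (4 * (s : ℝ) ^ 12 - 28 * (s : ℝ) ^ 10 + 81 * (s : ℝ) ^ 8 - 122 * (s : ℝ) ^ 6
      + 95 * (s : ℝ) ^ 4 - 30 * (s : ℝ) ^ 2 - 1) - 1 * (s : ℝ) ^ 12 =
      u ^ 5 * (3 * u - 28) + u ^ 3 * (81 * u - 122) + u * (95 * u - 30) - 1 := by
    rw [hu]
    ring
  have h3 : 0 ≤ u ^ 5 * (3 * u - 28) := mul_nonneg (by positivity) (by linarith)
  have h4 : 0 ≤ u ^ 3 * (81 * u - 122) := mul_nonneg (by positivity) (by linarith)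
  have h5 : 1 ≤ u * (95 * u - 30) := by nlinarith
  linarith

end Pool.Agent.U60.HL
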