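import Mathlib

/-!
# Pencils of polynomials: the number of members with repeated roots
-/

set_option autoImplicit false

open Polynomial

namespace Pool.Agent.U60.HL

theorem wronskian_ne {A B : ℚ[X]} (hc : IsCoprime A B) (hA : 0 < A.natDegree) :
    A * derivative B - derivative A * B ≠ 0 := by
  intro h
  have h1 : A ∣ derivative A * B := ⟨derivative B, (sub_eq_zero.1 h).symm⟩
  have h2 : A ∣ derivative A := hc.dvd_of_dvd_mul_right h1
  have hd : derivative A ≠ 0 := by
    intro h0
    have := derivative_eq_zero.1 h0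
    omega
  have h3 := natDegree_le_of_dvd h2 hd
  have h4 := natDegree_derivative_lt hA.ne'
  omega

theorem wronskian_ne' {A B : ℚ[X]} (hc : IsCoprime A B) (hB : 0 < B.natDegree) :
    A * derivative B - derivative A * B ≠ 0 := by
  intro h
  apply wronskian_ne hc.symm hB
  linear_combination -h

/-- At most `deg A + deg B` members of a pencil have repeated roots. -/
theorem pencil_card {A B : ℚ[X]} (hc : IsCoprime A B)
    (hW : A * derivative B - derivative A * B ≠ 0) (T : Finset ℚ)
    (hT : ∀ t ∈ T, ¬ (A + C t * B).Separable) : T.card ≤ A.natDegree + B.natDegree := by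
  classical
  set W := A * derivative B - derivative A * B with hWdef
  let K := AlgebraicClosure ℚ
  have key : ∀ t ∈ T, ∃ θ : K, aeval θ (A + C t * B) = 0 ∧ aeval θ W = 0 := by
    intro t ht
    have h1 : ¬ IsCoprime (A + C t * B) (derivative (A + C t * B)) := hT t ht
    rw [isCoprime_iff_aeval_ne_zero_of_isAlgClosed ℚ K] at h1
    push Not at h1
    obtain ⟨θ, h2, h3⟩ := h1
    refine ⟨θ, h2, ?_⟩
    have h4 : W = (A + C t * B) * derivative B - derivative (A + C t * B) * B := by
      rw [hWdef]
      simp only [derivative_add, derivative_mul, derivative_C, zero_mul, zero_add]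
      ring
    rw [h4, map_sub, map_mul, map_mul, h2, h3]
    ring
  choose! φ hφ1 hφ2 using key
  have hcard : T.card ≤ (W.aroots K).toFinset.card := by
    apply Finset.card_le_card_of_injOn φ
    · intro t ht
      rw [Finset.mem_coe, Multiset.mem_toFinset, mem_aroots]
      exact ⟨hW, hφ2 t ht⟩
    · intro t ht u hu htu
      by_contra hne
      have h1 := hφ1 t ht
      have h2 := hφ1 u hu
      rw [← htu] at h2
      have h3 : (algebraMap ℚ K (t - u)) * aeval (φ t) B = 0 := by
        have h4 : aeval (φ t) (A + C t * B) - aeval (φ t) (A + C u * B) = 0 := by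
          rw [h1, h2, sub_zero]
        simp only [map_add, map_mul, aeval_C] at h4
        rw [map_sub]
        linear_combination h4
      have h5 : aeval (φ t) B = 0 := by
        rcases mul_eq_zero.1 h3 with h | h
        · exfalso
          apply hne
          have := (map_eq_zero_iff (algebraMap ℚ K) (algebraMap ℚ K).injective).1 h
          linarith
        · exact h
      have h6 : aeval (φ t) A = 0 := by
        rw [map_add, map_mul, h5, mul_zero, add_zero] at h1
        exact h1
      rcases (isCoprime_iff_aeval_ne_zero_of_isAlgClosed ℚ K A B).1 hc (φ t) with h | h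
      · exact h h6
      · exact h h5
  have h1 : (W.aroots K).toFinset.card ≤ W.natDegree := by
    refine (Multiset.toFinset_card_le _).trans ?_
    refine (card_roots' _).trans ?_
    exact natDegree_map_le
  have h2 : W.natDegree ≤ max (A.natDegree + B.natDegree) (A.natDegree + B.natDegree) := by
    rw [hWdef]
    apply natDegree_sub_le_of_le
    · refine natDegree_mul_le_of_le le_rfl ((natDegree_derivative_le _).trans (Nat.sub_le _ _))
    · refine natDegree_mul_le_of_le ((natDegree_derivative_le _).trans (Nat.sub_le _ _)) le_rfl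
  rw [max_self] at h2
  omega

/-- In every interval of length `S` there are many squares for which the member of the pencil is
separable. -/
theorem good_card {A B : ℚ[X]} (hc : IsCoprime A B)
    (hW : A * derivative B - derivative A * B ≠ 0) (S : ℕ) (P : ℕ → Prop) [DecidablePred P]
    (hP : ∀ s : ℕ, (A + C ((s : ℚ) ^ 2) * B).Separable → P s) :
    S ≤ ((Finset.Ioc S (2 * S)).filter P).card + (A.natDegree + B.natDegree) := by
  classical
  have h1 := Finset.card_filter_add_card_filter_not (s := Finset.Ioc S (2 * S)) P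
  rw [Nat.card_Ioc] at h1
  have h2 : ((Finset.Ioc S (2 * S)).filter (fun s => ¬ P s)).card ≤ A.natDegree + B.natDegree := by
    rw [← Finset.card_image_of_injective _ (f := fun s : ℕ => ((s : ℚ) ^ 2))]
    · apply pencil_card hc hW
      intro t ht hsep
      obtain ⟨s, hs, rfl⟩ := Finset.mem_image.1 ht
      exact (Finset.mem_filter.1 hs).2 (hP s hsep)
    · intro a b h
      have h2 : ((a ^ 2 : ℕ) : ℚ) = ((b ^ 2 : ℕ) : ℚ) := by push_cast; exact h
      have h3 : a ^ 2 = b ^ 2 := by exact_mod_cast h2
      exact Nat.pow_left_injective (n := 2) (by norm_num) h3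
  omega

/-- Fourth powers modulo `X ^ (j + 1)`. -/
theorem pow_lemma {j : ℕ} {p r : ℝ[X]} (hp : p.natDegree ≤ j) (hr : r.natDegree ≤ j)
    (hp0 : 0 < p.coeff 0) (hr0 : 0 < r.coeff 0) (h : X ^ (j + 1) ∣ p ^ 4 - r ^ 4) : p = r := by
  have hcop : ∀ q : ℝ[X], q.coeff 0 ≠ 0 → IsCoprime (X ^ (j + 1)) q := by
    intro q hq
    apply IsCoprime.pow_left
    refine (irreducible_X.coprime_iff_not_dvd).2 ?_
    rwa [X_dvd_iff]
  have h1 : p ^ 4 - r ^ 4 = (p - r) * ((p + r) * (p ^ 2 + r ^ 2)) := by ring
  rw [h1] at h
  have h2 : IsCoprime (X ^ (j + 1)) ((p + r) * (p ^ 2 + r ^ 2)) := by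
    apply hcop
    rw [mul_coeff_zero, coeff_add, coeff_add, sq, sq, mul_coeff_zero, mul_coeff_zero]
    positivity
  have h3 : X ^ (j + 1) ∣ p - r := h2.dvd_of_dvd_mul_right h
  by_contra hne
  have h4 := natDegree_le_of_dvd h3 (sub_ne_zero.2 hne)
  rw [natDegree_X_pow] at h4
  have h5 : (p - r).natDegree ≤ j := by
    simpa using natDegree_sub_le_of_le hp hr
  omega

/-- coefficients of products -/
theorem mul_bound {p q : ℤ[X]} {M N D : ℕ} (hp : ∀ i, (p.coeff i).natAbs ≤ M)
    (hq : ∀ i, (q.coeff i).natAbs ≤ N) (hD : (p * q).natDegree ≤ D) (n : ℕ) :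
    ((p * q).coeff n).natAbs ≤ (D + 1) * (M * N) := by
  rcases le_or_gt n D with hn | hn
  · rw [coeff_mul]
    calc (∑ x ∈ Finset.HasAntidiagonal.antidiagonal n, p.coeff x.1 * q.coeff x.2).natAbs
        ≤ ∑ x ∈ Finset.HasAntidiagonal.antidiagonal n, (p.coeff x.1 * q.coeff x.2).natAbs :=
          Int.natAbs_sum_le _ _
      _ ≤ ∑ x ∈ Finset.HasAntidiagonal.antidiagonal n, M * N := by
          apply Finset.sum_le_sum
          intro x _
          rw [Int.natAbs_mul]
          exact Nat.mul_le_mul (hp _) (hq _)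
      _ = (n + 1) * (M * N) := by
          rw [Finset.sum_const, Finset.Nat.card_antidiagonal, smul_eq_mul]
      _ ≤ (D + 1) * (M * N) := by gcongr
  · rw [coeff_eq_zero_of_natDegree_lt (lt_of_le_of_lt hD hn)]
    simp

theorem coprime_pair {u v : ℚ[X]} (h : IsCoprime u v) : IsCoprime (u - C 8 * v) (u + v) := by
  obtain ⟨a, b, hab⟩ := h
  refine ⟨C (1 / 9) * (a - b), C (1 / 9) * (C 8 * a + b), ?_⟩
  have h9 : (C (1 / 9) * (1 + C 8) : ℚ[X]) = 1 := by
    rw [← C_1, ← C_add, ← C_mul]
    norm_num
  linear_combination (C (1 / 9) * (1 + C 8)) * hab + h9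

end Pool.Agent.U60.HL
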