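import Mathlib
import Pool.Agent.U60.HL.Fam
import Pool.Agent.U60.HL.Count

/-!
# Families with free coefficients
-/

set_option autoImplicit false

open Polynomial Filter

namespace Pool.Agent.U60.HL

/-- `x ^ (4 j + 3) - 8 b ^ 3 x ^ (j + 1) + q (4 b x ^ (3 j + 2) + 4 b ^ 4)` -/
noncomputable def Q1 (j : ℕ) (b : ℤ[X]) (q : ℤ) : ℤ[X] :=
  (X ^ (4 * j + 3) - C 8 * b ^ 3 * X ^ (j + 1)) + C q * (C 4 * b * X ^ (3 * j + 2) + C 4 * b ^ 4)

/-- `b ^ 4 - 8 b x ^ (3 j + 4) + q (4 b ^ 3 x ^ (j + 1) + 4 x ^ (4 j + 5))` -/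
noncomputable def Q2 (j : ℕ) (b : ℤ[X]) (q : ℤ) : ℤ[X] :=
  (b ^ 4 - C 8 * b * X ^ (3 * j + 4)) +
    C q * (C 4 * b ^ 3 * X ^ (j + 1) + C 4 * X ^ (4 * j + 5))

/-- admissible parameters: degree at most `j`, coefficients at most `A`, positive value at `0` -/
structure Par (j A : ℕ) (b : ℤ[X]) : Prop where
  deg : b.natDegree ≤ j
  bd : ∀ i, (b.coeff i).natAbs ≤ A
  pos : 0 < b.coeff 0

theorem Q1_point (j : ℕ) (b : ℤ[X]) (s : ℤ) :
    (s ^ (12 * j + 9) + 2 * b.eval (s ^ 6) * s ^ (6 * j + 5) - 2 * b.eval (s ^ 6) ^ 2 * s) ^ 2 =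
      (Q1 j b (s ^ 2)).eval (s ^ 6) := by
  simp only [Q1, eval_add, eval_sub, eval_mul, eval_C, eval_pow, eval_X]
  ring

theorem Q2_point (j : ℕ) (b : ℤ[X]) (s : ℤ) :
    (b.eval (s ^ 6) ^ 2 + 2 * b.eval (s ^ 6) * s ^ (6 * j + 8) - 2 * s ^ (12 * j + 16)) ^ 2 =
      (Q2 j b (s ^ 2)).eval (s ^ 6) := by
  simp only [Q2, eval_add, eval_sub, eval_mul, eval_C, eval_pow, eval_X]
  ring

theorem natDegree_pow_le' {R : Type} [CommRing R] {b : R[X]} {j : ℕ} (h : b.natDegree ≤ j) (n : ℕ) :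
    (b ^ n).natDegree ≤ n * j :=
  natDegree_pow_le.trans (Nat.mul_le_mul le_rfl h)

theorem Q1_natDegree {j A : ℕ} {b : ℤ[X]} (h : Par j A b) (q : ℤ) :
    (Q1 j b q).natDegree = 4 * j + 3 := by
  have e : Q1 j b q = X ^ (4 * j + 3) +
      (C q * (C 4 * b * X ^ (3 * j + 2) + C 4 * b ^ 4) - C 8 * b ^ 3 * X ^ (j + 1)) := by
    unfold Q1
    ring
  have h3 := natDegree_pow_le' h.deg 3
  have h4 := natDegree_pow_le' h.deg 4
  have hR : (C q * (C 4 * b * X ^ (3 * j + 2) + C 4 * b ^ 4) -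
      C 8 * b ^ 3 * X ^ (j + 1)).natDegree ≤ 4 * j + 2 := by
    refine (natDegree_sub_le_of_le (m := 4 * j + 2) (n := 4 * j + 2) ?_ ?_).trans (by simp)
    · refine (natDegree_C_mul_le _ _).trans ?_
      refine (natDegree_add_le_of_degree_le (n := 4 * j + 2) ?_ ?_)
      · refine (natDegree_mul_le_of_le (natDegree_C_mul_le _ _) (natDegree_X_pow_le _)).trans ?_
        have := h.deg
        omega
      · refine (natDegree_C_mul_le _ _).trans ?_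
        omega
    · refine (natDegree_mul_le_of_le (natDegree_C_mul_le _ _) (natDegree_X_pow_le _)).trans ?_
      omega
  rw [e, natDegree_add_eq_left_of_natDegree_lt]
  · exact natDegree_X_pow _
  · rw [natDegree_X_pow]
    omega

theorem Q2_natDegree {j A : ℕ} {b : ℤ[X]} (h : Par j A b) {q : ℤ} (hq : q ≠ 0) :
    (Q2 j b q).natDegree = 4 * j + 5 := by
  have e : Q2 j b q = C (q * 4) * X ^ (4 * j + 5) +
      ((b ^ 4 - C 8 * b * X ^ (3 * j + 4)) + C q * (C 4 * b ^ 3 * X ^ (j + 1))) := by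
    unfold Q2
    rw [C_mul]
    ring
  have h3 := natDegree_pow_le' h.deg 3
  have h4 := natDegree_pow_le' h.deg 4
  have hR : ((b ^ 4 - C 8 * b * X ^ (3 * j + 4)) +
      C q * (C 4 * b ^ 3 * X ^ (j + 1))).natDegree ≤ 4 * j + 4 := by
    refine natDegree_add_le_of_degree_le ?_ ?_
    · refine (natDegree_sub_le_of_le (m := 4 * j + 4) (n := 4 * j + 4) ?_ ?_).trans (by simp)
      · omega
      · refine (natDegree_mul_le_of_le (natDegree_C_mul_le _ _) (natDegree_X_pow_le _)).trans ?_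
        have := h.deg
        omega
    · refine (natDegree_C_mul_le _ _).trans ?_
      refine (natDegree_mul_le_of_le (natDegree_C_mul_le _ _) (natDegree_X_pow_le _)).trans ?_
      omega
  have hlead : (C (q * 4) * X ^ (4 * j + 5) : ℤ[X]).natDegree = 4 * j + 5 :=
    natDegree_C_mul_X_pow _ _ (mul_ne_zero hq (by norm_num))
  rw [e, natDegree_add_eq_left_of_natDegree_lt]
  · exact hlead
  · rw [hlead]
    omega

theorem Q1_coeff_zero {j : ℕ} (b : ℤ[X]) (q : ℤ) :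
    (Q1 j b q).coeff 0 = q * (4 * (b.coeff 0) ^ 4) := by
  simp [Q1, coeff_zero_eq_eval_zero]

theorem Q2_coeff_zero {j : ℕ} (b : ℤ[X]) (q : ℤ) :
    (Q2 j b q).coeff 0 = (b.coeff 0) ^ 4 := by
  simp [Q2, coeff_zero_eq_eval_zero]

theorem shift_bound {p : ℤ[X]} {M : ℕ} (hp : ∀ i, (p.coeff i).natAbs ≤ M) (n i : ℕ) :
    ((p * X ^ n).coeff i).natAbs ≤ M := by
  rw [coeff_mul_X_pow']
  split_ifs
  · exact hp _
  · simp

theorem pow_bounds {j A : ℕ} {b : ℤ[X]} (h : Par j A b) (hA : 1 ≤ A) (i : ℕ) :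
    (b.coeff i).natAbs ≤ (4 * j + 1) ^ 3 * A ^ 4 ∧
    ((b ^ 3).coeff i).natAbs ≤ (4 * j + 1) ^ 3 * A ^ 4 ∧
    ((b ^ 4).coeff i).natAbs ≤ (4 * j + 1) ^ 3 * A ^ 4 := by
  have hA2 : A ≤ A ^ 4 := Nat.le_self_pow (by norm_num) _
  have hA3 : A ^ 3 ≤ A ^ 4 := Nat.pow_le_pow_right hA (by norm_num)
  have hD : 1 ≤ 4 * j + 1 := by omega
  have hD1 : 1 ≤ (4 * j + 1) ^ 3 := Nat.one_le_pow _ _ hD
  have hD2 : (4 * j + 1) ^ 2 ≤ (4 * j + 1) ^ 3 := Nat.pow_le_pow_right hD (by norm_num)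
  have b2 : ∀ i, ((b * b).coeff i).natAbs ≤ (4 * j + 1) * (A * A) := by
    apply mul_bound h.bd h.bd
    rw [← sq]
    exact (natDegree_pow_le' h.deg 2).trans (by omega)
  have b3 : ∀ i, ((b * b * b).coeff i).natAbs ≤ (4 * j + 1) * ((4 * j + 1) * (A * A) * A) := by
    apply mul_bound b2 h.bd
    have e : b * b * b = b ^ 3 := by ring
    rw [e]
    exact (natDegree_pow_le' h.deg 3).trans (by omega)
  have b4 : ∀ i, ((b * b * b * b).coeff i).natAbs ≤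
      (4 * j + 1) * ((4 * j + 1) * ((4 * j + 1) * (A * A) * A) * A) := by
    apply mul_bound b3 h.bd
    have e : b * b * b * b = b ^ 4 := by ring
    rw [e]
    exact natDegree_pow_le' h.deg 4
  refine ⟨?_, ?_, ?_⟩
  · calc (b.coeff i).natAbs ≤ A := h.bd i
      _ ≤ 1 * A ^ 4 := by omega
      _ ≤ _ := Nat.mul_le_mul hD1 le_rfl
  · have e : b ^ 3 = b * b * b := by ring
    rw [e]
    calc ((b * b * b).coeff i).natAbs ≤ (4 * j + 1) * ((4 * j + 1) * (A * A) * A) := b3 i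
      _ = (4 * j + 1) ^ 2 * A ^ 3 := by ring
      _ ≤ _ := Nat.mul_le_mul hD2 hA3
  · have e : b ^ 4 = b * b * b * b := by ring
    rw [e]
    calc ((b * b * b * b).coeff i).natAbs ≤
        (4 * j + 1) * ((4 * j + 1) * ((4 * j + 1) * (A * A) * A) * A) := b4 i
      _ = _ := by ring

theorem Q1_height {j A : ℕ} {b : ℤ[X]} (h : Par j A b) (hA : 1 ≤ A) {s : ℕ} (hs : 1 ≤ s) (i : ℕ) :
    ((Q1 j b ((s : ℤ) ^ 2)).coeff i).natAbs ≤ 17 * ((4 * j + 1) ^ 3 * A ^ 4) * s ^ 2 := by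
  have hM : 1 ≤ (4 * j + 1) ^ 3 * A ^ 4 :=
    Nat.mul_pos (Nat.pow_pos (by omega)) (Nat.pow_pos hA)
  obtain ⟨-, -, c4⟩ := pow_bounds h hA i
  have c1 := shift_bound (fun i => (pow_bounds h hA i).1) (3 * j + 2) i
  have c3 := shift_bound (fun i => (pow_bounds h hA i).2.1) (j + 1) i
  have e : (Q1 j b ((s : ℤ) ^ 2)).coeff i = (if i = 4 * j + 3 then 1 else 0) -
      8 * (b ^ 3 * X ^ (j + 1)).coeff i +
      (s : ℤ) ^ 2 * (4 * (b * X ^ (3 * j + 2)).coeff i + 4 * (b ^ 4).coeff i) := by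
    simp only [Q1, coeff_add, coeff_sub, coeff_C_mul, coeff_X_pow, mul_assoc]
  rw [e]
  have h2 : ((s : ℤ) ^ 2) = ((s ^ 2 : ℕ) : ℤ) := by push_cast; rfl
  rw [h2]
  have hq : 1 ≤ s ^ 2 := Nat.one_le_pow _ _ hs
  generalize s ^ 2 = q at *
  generalize (4 * j + 1) ^ 3 * A ^ 4 = M at *
  generalize (b ^ 3 * X ^ (j + 1)).coeff i = u3 at *
  generalize (b * X ^ (3 * j + 2)).coeff i = u1 at *
  generalize (b ^ 4).coeff i = u4 at *
  have hmul : M ≤ M * q := Nat.le_mul_of_pos_right _ hq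
  have k1 : ((q : ℤ) * (4 * u1 + 4 * u4)).natAbs ≤ q * (8 * M) := by
    rw [Int.natAbs_mul, Int.natAbs_natCast]
    apply Nat.mul_le_mul le_rfl
    omega
  generalize (q : ℤ) * (4 * u1 + 4 * u4) = w at *
  have k2 : q * (8 * M) = 8 * (M * q) := by ring
  have k3 : 17 * M * q = 17 * (M * q) := by ring
  rw [k3]
  rw [k2] at k1
  generalize M * q = z at *
  split_ifs <;> omega

theorem Q2_height {j A : ℕ} {b : ℤ[X]} (h : Par j A b) (hA : 1 ≤ A) {s : ℕ} (hs : 1 ≤ s) (i : ℕ) :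
    ((Q2 j b ((s : ℤ) ^ 2)).coeff i).natAbs ≤ 17 * ((4 * j + 1) ^ 3 * A ^ 4) * s ^ 2 := by
  have hM : 1 ≤ (4 * j + 1) ^ 3 * A ^ 4 :=
    Nat.mul_pos (Nat.pow_pos (by omega)) (Nat.pow_pos hA)
  obtain ⟨-, -, c4⟩ := pow_bounds h hA i
  have c1 := shift_bound (fun i => (pow_bounds h hA i).1) (3 * j + 4) i
  have c3 := shift_bound (fun i => (pow_bounds h hA i).2.1) (j + 1) i
  have e : (Q2 j b ((s : ℤ) ^ 2)).coeff i = (b ^ 4).coeff i -
      8 * (b * X ^ (3 * j + 4)).coeff i +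
      (s : ℤ) ^ 2 * (4 * (b ^ 3 * X ^ (j + 1)).coeff i + 4 * (if i = 4 * j + 5 then 1 else 0)) := by
    simp only [Q2, coeff_add, coeff_sub, coeff_C_mul, coeff_X_pow, mul_assoc]
  rw [e]
  have h2 : ((s : ℤ) ^ 2) = ((s ^ 2 : ℕ) : ℤ) := by push_cast; rfl
  rw [h2]
  have hq : 1 ≤ s ^ 2 := Nat.one_le_pow _ _ hs
  generalize s ^ 2 = q at *
  generalize (4 * j + 1) ^ 3 * A ^ 4 = M at *
  generalize (b ^ 3 * X ^ (j + 1)).coeff i = u3 at *
  generalize (b * X ^ (3 * j + 4)).coeff i = u1 at *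
  generalize (b ^ 4).coeff i = u4 at *
  have hmul : M ≤ M * q := Nat.le_mul_of_pos_right _ hq
  have k1 : ((q : ℤ) * (4 * u3 + 4 * (if i = 4 * j + 5 then 1 else 0))).natAbs ≤ q * (8 * M) := by
    rw [Int.natAbs_mul, Int.natAbs_natCast]
    apply Nat.mul_le_mul le_rfl
    split_ifs <;> omega
  generalize (q : ℤ) * (4 * u3 + 4 * (if i = 4 * j + 5 then 1 else 0)) = w at *
  have k2 : q * (8 * M) = 8 * (M * q) := by ring
  have k3 : 17 * M * q = 17 * (M * q) := by ring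
  rw [k3]
  rw [k2] at k1
  generalize M * q = z at *
  omega

end Pool.Agent.U60.HL
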