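import Mathlib
import Pool.Agent.U60.HL.Gen

/-!
# Injectivity and separability
-/

set_option autoImplicit false

open Polynomial Filter

namespace Pool.Agent.U60.HL

theorem coprime_X_pow {b : ℚ[X]} (h0 : b.coeff 0 ≠ 0) (n : ℕ) : IsCoprime (X ^ n) b := by
  apply IsCoprime.pow_left
  refine (irreducible_X.coprime_iff_not_dvd).2 ?_
  rwa [X_dvd_iff]

theorem unit4 : IsUnit (C 4 : ℚ[X]) := isUnit_C.2 (isUnit_iff_ne_zero.2 (by norm_num))

/-- For every admissible `b` the polynomials `Q1 j b (s ^ 2)` are separable for all but `8 j + 6`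
of the numbers `s` of an interval. -/
theorem Q1_good {j A : ℕ} {b : ℤ[X]} (h : Par j A b) (S : ℕ) (P : ℕ → Prop) [DecidablePred P]
    (hP : ∀ s : ℕ, ((Q1 j b ((s : ℤ) ^ 2)).map (Int.castRingHom ℚ)).Separable → P s) :
    S ≤ ((Finset.Ioc S (2 * S)).filter P).card + (8 * j + 10) := by
  have h8 : (C 8 : ℚ[X]) = 8 := map_ofNat C 8
  have h4 : (C 4 : ℚ[X]) = 4 := map_ofNat C 4
  obtain ⟨β, hβ⟩ : ∃ β : ℚ[X], β = b.map (Int.castRingHom ℚ) := ⟨_, rfl⟩
  have hβ0 : β.coeff 0 ≠ 0 := by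
    rw [hβ, coeff_map]
    have := h.pos
    simpa using this.ne'
  have hβd : β.natDegree ≤ j := by
    rw [hβ]
    exact natDegree_map_le.trans h.deg
  have hX : ∀ n, IsCoprime (X ^ n) β := coprime_X_pow hβ0
  have hc : IsCoprime (X ^ (4 * j + 3) - C 8 * β ^ 3 * X ^ (j + 1))
      (C 4 * β * X ^ (3 * j + 2) + C 4 * β ^ 4) := by
    have e1 : X ^ (4 * j + 3) - C 8 * β ^ 3 * X ^ (j + 1) =
        X ^ (j + 1) * (X ^ (3 * j + 2) - C 8 * β ^ 3) := by ring
    have e2 : C 4 * β * X ^ (3 * j + 2) + C 4 * β ^ 4 =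
        C 4 * (β * (X ^ (3 * j + 2) + β ^ 3)) := by ring
    rw [e1, e2, isCoprime_mul_unit_left_right unit4]
    apply IsCoprime.mul_left
    · apply IsCoprime.mul_right
      · exact hX _
      · have e3 : (X ^ (3 * j + 2) + β ^ 3 : ℚ[X]) = β ^ 3 + X ^ (j + 1) * X ^ (2 * j + 1) := by
          ring
        rw [e3]
        exact ((hX (j + 1)).pow_right (n := 3)).add_mul_left_right _
    · apply IsCoprime.mul_right
      · have e3 : (X ^ (3 * j + 2) - C 8 * β ^ 3 : ℚ[X]) =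
            X ^ (3 * j + 2) + β * (- C 8 * β ^ 2) := by ring
        rw [e3]
        exact (hX _).add_mul_left_left _
      · exact coprime_pair ((hX _).pow_right)
  have hdA : (X ^ (4 * j + 3) - C 8 * β ^ 3 * X ^ (j + 1)).natDegree = 4 * j + 3 := by
    rw [natDegree_sub_eq_left_of_natDegree_lt]
    · exact natDegree_X_pow _
    · rw [natDegree_X_pow]
      refine lt_of_le_of_lt
        (natDegree_mul_le_of_le (natDegree_C_mul_le _ _) (natDegree_X_pow_le _)) ?_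
      have := natDegree_pow_le' hβd 3
      omega
  have hdB : (C 4 * β * X ^ (3 * j + 2) + C 4 * β ^ 4).natDegree ≤ 4 * j + 2 := by
    refine natDegree_add_le_of_degree_le ?_ ?_
    · refine (natDegree_mul_le_of_le (natDegree_C_mul_le _ _) (natDegree_X_pow_le _)).trans ?_
      omega
    · refine (natDegree_C_mul_le _ _).trans ?_
      have := natDegree_pow_le' hβd 4
      omega
  have hW := wronskian_ne hc (by omega)
  have hg := good_card hc hW S P (fun s hs => hP s (by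
    convert hs using 1
    simp [Q1, hβ, h8, h4]))
  omega

theorem Q2_good {j A : ℕ} {b : ℤ[X]} (h : Par j A b) (S : ℕ) (P : ℕ → Prop) [DecidablePred P]
    (hP : ∀ s : ℕ, ((Q2 j b ((s : ℤ) ^ 2)).map (Int.castRingHom ℚ)).Separable → P s) :
    S ≤ ((Finset.Ioc S (2 * S)).filter P).card + (8 * j + 10) := by
  have h8 : (C 8 : ℚ[X]) = 8 := map_ofNat C 8
  have h4 : (C 4 : ℚ[X]) = 4 := map_ofNat C 4
  obtain ⟨β, hβ⟩ : ∃ β : ℚ[X], β = b.map (Int.castRingHom ℚ) := ⟨_, rfl⟩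
  have hβ0 : β.coeff 0 ≠ 0 := by
    rw [hβ, coeff_map]
    have := h.pos
    simpa using this.ne'
  have hβd : β.natDegree ≤ j := by
    rw [hβ]
    exact natDegree_map_le.trans h.deg
  have hX : ∀ n, IsCoprime (X ^ n) β := coprime_X_pow hβ0
  have hc : IsCoprime (β ^ 4 - C 8 * β * X ^ (3 * j + 4))
      (C 4 * β ^ 3 * X ^ (j + 1) + C 4 * X ^ (4 * j + 5)) := by
    have e1 : β ^ 4 - C 8 * β * X ^ (3 * j + 4) = β * (β ^ 3 - C 8 * X ^ (3 * j + 4)) := by ring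
    have e2 : C 4 * β ^ 3 * X ^ (j + 1) + C 4 * X ^ (4 * j + 5) =
        C 4 * (X ^ (j + 1) * (β ^ 3 + X ^ (3 * j + 4))) := by ring
    rw [e1, e2, isCoprime_mul_unit_left_right unit4]
    apply IsCoprime.mul_left
    · apply IsCoprime.mul_right
      · exact (hX _).symm
      · have e3 : (β ^ 3 + X ^ (3 * j + 4) : ℚ[X]) = X ^ (3 * j + 4) + β * β ^ 2 := by ring
        rw [e3]
        exact (hX _).symm.add_mul_left_right _
    · apply IsCoprime.mul_right
      · have e3 : (β ^ 3 - C 8 * X ^ (3 * j + 4) : ℚ[X]) =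
            β ^ 3 + X ^ (j + 1) * (- C 8 * X ^ (2 * j + 3)) := by ring
        rw [e3]
        exact ((hX (j + 1)).symm.pow_left (m := 3)).add_mul_left_left _
      · exact coprime_pair ((hX _).symm.pow_left)
  have hdB : (C 4 * β ^ 3 * X ^ (j + 1) + C 4 * X ^ (4 * j + 5)).natDegree = 4 * j + 5 := by
    have hl : (C 4 * X ^ (4 * j + 5) : ℚ[X]).natDegree = 4 * j + 5 :=
      natDegree_C_mul_X_pow _ _ (by norm_num)
    rw [natDegree_add_eq_right_of_natDegree_lt]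
    · exact hl
    · rw [hl]
      refine lt_of_le_of_lt
        (natDegree_mul_le_of_le (natDegree_C_mul_le _ _) (natDegree_X_pow_le _)) ?_
      have := natDegree_pow_le' hβd 3
      omega
  have hdA : (β ^ 4 - C 8 * β * X ^ (3 * j + 4)).natDegree ≤ 4 * j + 4 := by
    refine (natDegree_sub_le_of_le (m := 4 * j + 4) (n := 4 * j + 4) ?_ ?_).trans (by simp)
    · have := natDegree_pow_le' hβd 4
      omega
    · refine (natDegree_mul_le_of_le (natDegree_C_mul_le _ _) (natDegree_X_pow_le _)).trans ?_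
      omega
  have hW := wronskian_ne' hc (by omega)
  have hg := good_card hc hW S P (fun s hs => hP s (by
    convert hs using 1
    simp [Q2, hβ, h8, h4]))
  omega

/-- `b` and `s` are determined by `Q1 j b (s ^ 2)`. -/
theorem Q1_inj {j A : ℕ} {b b' : ℤ[X]} (h : Par j A b) (h' : Par j A b') {s s' : ℕ}
    (hs : 0 < s) (hs' : 0 < s') (he : Q1 j b ((s : ℤ) ^ 2) = Q1 j b' ((s' : ℤ) ^ 2)) :
    b = b' ∧ s = s' := by
  have h8 : (C 8 : ℝ[X]) = 8 := map_ofNat C 8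
  have h4 : (C 4 : ℝ[X]) = 4 := map_ofNat C 4
  obtain ⟨β, hβ⟩ : ∃ β : ℝ[X], β = b.map (Int.castRingHom ℝ) := ⟨_, rfl⟩
  obtain ⟨β', hβ'⟩ : ∃ β : ℝ[X], β = b'.map (Int.castRingHom ℝ) := ⟨_, rfl⟩
  have hb0 : 0 < β.coeff 0 := by
    rw [hβ, coeff_map]
    simpa using h.pos
  have hb0' : 0 < β'.coeff 0 := by
    rw [hβ', coeff_map]
    simpa using h'.pos
  have hd : β.natDegree ≤ j := by
    rw [hβ]
    exact natDegree_map_le.trans h.deg
  have hd' : β'.natDegree ≤ j := by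
    rw [hβ']
    exact natDegree_map_le.trans h'.deg
  obtain ⟨σ, hσ, hσs⟩ : ∃ σ : ℝ, 0 < σ ∧ σ ^ 2 = s :=
    ⟨Real.sqrt s, Real.sqrt_pos.2 (by exact_mod_cast hs), Real.sq_sqrt (Nat.cast_nonneg s)⟩
  obtain ⟨τ, hτ, hτs⟩ : ∃ τ : ℝ, 0 < τ ∧ τ ^ 2 = s' :=
    ⟨Real.sqrt s', Real.sqrt_pos.2 (by exact_mod_cast hs'), Real.sq_sqrt (Nat.cast_nonneg s')⟩
  have hE : (X ^ (4 * j + 3) - 8 * β ^ 3 * X ^ (j + 1)) +
      C σ ^ 4 * (4 * β * X ^ (3 * j + 2) + 4 * β ^ 4) =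
      (X ^ (4 * j + 3) - 8 * β' ^ 3 * X ^ (j + 1)) +
      C τ ^ 4 * (4 * β' * X ^ (3 * j + 2) + 4 * β' ^ 4) := by
    have h1 := congrArg (Polynomial.map (Int.castRingHom ℝ)) he
    have e1 : (C σ : ℝ[X]) ^ 4 = (s : ℝ[X]) ^ 2 := by
      rw [← C_pow, show σ ^ 4 = (s : ℝ) ^ 2 by rw [← hσs]; ring, C_pow]
      simp
    have e2 : (C τ : ℝ[X]) ^ 4 = (s' : ℝ[X]) ^ 2 := by
      rw [← C_pow, show τ ^ 4 = (s' : ℝ) ^ 2 by rw [← hτs]; ring, C_pow]
      simp
    rw [e1, e2]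
    simpa [Q1, hβ, hβ'] using h1
  have hdvd : X ^ (j + 1) ∣ (C σ * β) ^ 4 - (C τ * β') ^ 4 := by
    refine ⟨C (1 / 4) * (8 * β ^ 3 - 8 * β' ^ 3 - 4 * C σ ^ 4 * β * X ^ (2 * j + 1) +
      4 * C τ ^ 4 * β' * X ^ (2 * j + 1)), ?_⟩
    have hq : (C (1 / 4) * 4 : ℝ[X]) = 1 := by
      rw [← h4, ← C_mul, ← C_1]
      norm_num
    linear_combination (C (1 / 4)) * hE - ((C σ * β) ^ 4 - (C τ * β') ^ 4) * hq
  have hσd : (C σ * β).natDegree ≤ j := (natDegree_C_mul_le _ _).trans hd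
  have hτd : (C τ * β').natDegree ≤ j := (natDegree_C_mul_le _ _).trans hd'
  have hpow := pow_lemma hσd hτd (by rw [coeff_C_mul]; positivity)
    (by rw [coeff_C_mul]; positivity) hdvd
  -- now compare the coefficients of `X ^ (j + 1)`
  have h3 : X ^ (j + 1) * (8 * β ^ 3 - 8 * β' ^ 3 - (4 * C σ ^ 4 * β - 4 * C τ ^ 4 * β') *
      X ^ (2 * j + 1)) = 0 := by
    have h5 : (C σ * β) ^ 4 = (C τ * β') ^ 4 := by rw [hpow]
    linear_combination -hE + 4 * h5
  have h6 : 8 * β ^ 3 - 8 * β' ^ 3 - (4 * C σ ^ 4 * β - 4 * C τ ^ 4 * β') *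
      X ^ (2 * j + 1) = (0 : ℝ[X]) := by
    rcases mul_eq_zero.1 h3 with h | h
    · exact absurd h (pow_ne_zero _ X_ne_zero)
    · exact h
  have h7 := congrArg (eval (0 : ℝ)) h6
  simp only [eval_sub, eval_mul, eval_pow, eval_X, eval_zero, eval_ofNat, eval_C] at h7
  rw [zero_pow (by omega), mul_zero, sub_zero, ← coeff_zero_eq_eval_zero,
    ← coeff_zero_eq_eval_zero] at h7
  have h9 : β.coeff 0 = β'.coeff 0 := by
    have h10 : (β.coeff 0) ^ 3 = (β'.coeff 0) ^ 3 := by linarith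
    exact (pow_left_inj₀ hb0.le hb0'.le (by norm_num)).1 h10
  have h11 : σ * β.coeff 0 = τ * β'.coeff 0 := by
    have := congrArg (fun p => coeff p 0) hpow
    simpa using this
  rw [h9] at h11
  have h12 : σ = τ := mul_right_cancel₀ hb0'.ne' h11
  constructor
  · have h13 : β = β' := by
      rw [h12] at hpow
      exact mul_left_cancel₀ (C_ne_zero.2 hτ.ne') hpow
    rw [hβ, hβ'] at h13
    exact map_injective _ (RingHom.injective_int _) h13
  · have h14 : (s : ℝ) = s' := by rw [← hσs, ← hτs, h12]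
    exact_mod_cast h14

end Pool.Agent.U60.HL
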