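import Mathlib
import Pool.Agent.U60.HL.Inj

/-!
# Many polynomials with large integral points
-/

set_option autoImplicit false

open Polynomial Filter

namespace Pool.Agent.U60.HL

/-- `b` and `s` are determined by `Q2 j b (s ^ 2)`. -/
theorem Q2_inj {j A : ℕ} {b b' : ℤ[X]} (h : Par j A b) (h' : Par j A b') {s s' : ℕ}
    (he : Q2 j b ((s : ℤ) ^ 2) = Q2 j b' ((s' : ℤ) ^ 2)) : b = b' ∧ s = s' := by
  have hlead : ∀ (b : ℤ[X]), Par j A b → ∀ q : ℤ, (Q2 j b q).coeff (4 * j + 5) = q * 4 := by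
    intro b hb q
    have h3 := natDegree_pow_le' hb.deg 3
    have h4 := natDegree_pow_le' hb.deg 4
    have c1 : (b ^ 4).coeff (4 * j + 5) = 0 := coeff_eq_zero_of_natDegree_lt (by omega)
    have c2 : (C 8 * b * X ^ (3 * j + 4)).coeff (4 * j + 5) = 0 := by
      apply coeff_eq_zero_of_natDegree_lt
      refine lt_of_le_of_lt
        (natDegree_mul_le_of_le (natDegree_C_mul_le _ _) (natDegree_X_pow_le _)) ?_
      have := hb.deg
      omega
    have c3 : (C 4 * b ^ 3 * X ^ (j + 1)).coeff (4 * j + 5) = 0 := by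
      apply coeff_eq_zero_of_natDegree_lt
      refine lt_of_le_of_lt
        (natDegree_mul_le_of_le (natDegree_C_mul_le _ _) (natDegree_X_pow_le _)) ?_
      omega
    have c4 : (C 4 * X ^ (4 * j + 5) : ℤ[X]).coeff (4 * j + 5) = 4 := by
      rw [coeff_C_mul, coeff_X_pow, if_pos rfl, mul_one]
    have e : (Q2 j b q).coeff (4 * j + 5) = (b ^ 4).coeff (4 * j + 5) -
        (C 8 * b * X ^ (3 * j + 4)).coeff (4 * j + 5) +
        q * ((C 4 * b ^ 3 * X ^ (j + 1)).coeff (4 * j + 5) +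
          (C 4 * X ^ (4 * j + 5) : ℤ[X]).coeff (4 * j + 5)) := by
      unfold Q2
      rw [coeff_add, coeff_sub, coeff_C_mul, coeff_add]
    rw [e, c1, c2, c3, c4]
    ring
  have hs : s = s' := by
    have h1 := congrArg (fun p => coeff p (4 * j + 5)) he
    simp only [hlead b h, hlead b' h'] at h1
    have h2 : ((s ^ 2 : ℕ) : ℤ) = ((s' ^ 2 : ℕ) : ℤ) := by
      push_cast
      linarith
    have h3 : s ^ 2 = s' ^ 2 := by exact_mod_cast h2
    exact Nat.pow_left_injective (n := 2) (by norm_num) h3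
  refine ⟨?_, hs⟩
  have h8 : (C 8 : ℝ[X]) = 8 := map_ofNat C 8
  have h4 : (C 4 : ℝ[X]) = 4 := map_ofNat C 4
  obtain ⟨β, hβ⟩ : ∃ β : ℝ[X], β = b.map (Int.castRingHom ℝ) := ⟨_, rfl⟩
  obtain ⟨β', hβ'⟩ : ∃ β : ℝ[X], β = b'.map (Int.castRingHom ℝ) := ⟨_, rfl⟩
  have hb0 : 0 < β.coeff 0 := by
    rw [hβ, coeff_map]
    simpa using h.pos
  have hb0' : 0 < β'.coeff 0 := by
    rw [hβ', coeff_map]
    simpa using h'.pos
  have hd : β.natDegree ≤ j := by
    rw [hβ]
    exact natDegree_map_le.trans h.deg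
  have hd' : β'.natDegree ≤ j := by
    rw [hβ']
    exact natDegree_map_le.trans h'.deg
  have hE : (β ^ 4 - 8 * β * X ^ (3 * j + 4)) +
      (s : ℝ[X]) ^ 2 * (4 * β ^ 3 * X ^ (j + 1) + 4 * X ^ (4 * j + 5)) =
      (β' ^ 4 - 8 * β' * X ^ (3 * j + 4)) +
      (s' : ℝ[X]) ^ 2 * (4 * β' ^ 3 * X ^ (j + 1) + 4 * X ^ (4 * j + 5)) := by
    have h1 := congrArg (Polynomial.map (Int.castRingHom ℝ)) he
    simpa [Q2, hβ, hβ'] using h1
  have hdvd : X ^ (j + 1) ∣ β ^ 4 - β' ^ 4 := by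
    refine ⟨8 * β * X ^ (2 * j + 3) - 8 * β' * X ^ (2 * j + 3) -
      (s : ℝ[X]) ^ 2 * (4 * β ^ 3 + 4 * X ^ (3 * j + 4)) +
      (s' : ℝ[X]) ^ 2 * (4 * β' ^ 3 + 4 * X ^ (3 * j + 4)), ?_⟩
    linear_combination hE
  have h9 := pow_lemma hd hd' hb0 hb0' hdvd
  rw [hβ, hβ'] at h9
  exact map_injective _ (RingHom.injective_int _) h9

/-- the polynomial with the coefficients `v i + 1` -/
noncomputable def box (k A : ℕ) (v : Fin k → Fin A) : ℤ[X] :=
  ∑ i : Fin k, C (((v i : ℕ) : ℤ) + 1) * X ^ (i : ℕ)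

theorem box_coeff {k A : ℕ} (v : Fin k → Fin A) (n : ℕ) :
    (box k A v).coeff n = if h : n < k then (((v ⟨n, h⟩ : Fin A) : ℕ) : ℤ) + 1 else 0 := by
  unfold box
  rw [finsetSum_coeff]
  split_ifs with h
  · rw [Finset.sum_eq_single (⟨n, h⟩ : Fin k)]
    · rw [coeff_C_mul, coeff_X_pow, if_pos rfl, mul_one]
    · intro i _ hi
      rw [coeff_C_mul, coeff_X_pow, if_neg, mul_zero]
      intro hn
      exact hi (Fin.ext hn.symm)
    · intro hcon
      exact absurd (Finset.mem_univ _) hcon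
  · apply Finset.sum_eq_zero
    intro i _
    rw [coeff_C_mul, coeff_X_pow, if_neg, mul_zero]
    have := i.isLt
    omega

theorem box_par {j A : ℕ} (v : Fin (j + 1) → Fin A) : Par j A (box (j + 1) A v) := by
  refine ⟨?_, ?_, ?_⟩
  · rw [natDegree_le_iff_coeff_eq_zero]
    intro N hN
    rw [box_coeff, dif_neg (by omega)]
  · intro i
    rw [box_coeff]
    split_ifs with h
    · have := (v ⟨i, h⟩).isLt
      omega
    · simp
  · rw [box_coeff, dif_pos (by omega)]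
    positivity

theorem box_inj {k A : ℕ} {v w : Fin k → Fin A} (h : box k A v = box k A w) : v = w := by
  funext i
  have h1 := congrArg (fun p => coeff p (i : ℕ)) h
  simp only [box_coeff, dif_pos i.isLt, Fin.eta] at h1
  have h2 : (((v i : Fin A) : ℕ) : ℤ) = (((w i : Fin A) : ℕ) : ℤ) := by linarith
  exact Fin.ext (by exact_mod_cast h2)

theorem count_family {j A : ℕ} (S N : ℕ) (G : ℤ[X] → ℕ → ℤ[X])
    (hinj : ∀ b b' : ℤ[X], ∀ s s' : ℕ, Par j A b → Par j A b' → 0 < s → 0 < s' →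
      G b s = G b' s' → b = b' ∧ s = s')
    (hgood : ∀ b : ℤ[X], Par j A b → ∀ (P : ℕ → Prop) [DecidablePred P],
      (∀ s : ℕ, 0 < s → ((G b s).map (Int.castRingHom ℚ)).Separable → P s) →
      S ≤ ((Finset.Ioc S (2 * S)).filter P).card + N) :
    ∃ F : Finset ℤ[X], A ^ (j + 1) * S ≤ F.card + A ^ (j + 1) * N ∧
      ∀ f ∈ F, ((f.map (Int.castRingHom ℚ)).Separable ∧
        ∃ (b : ℤ[X]) (s : ℕ), Par j A b ∧ S < s ∧ s ≤ 2 * S ∧ f = G b s) := by
  classical
  let I : Finset (Σ _ : (Fin (j + 1) → Fin A), ℕ) :=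
    Finset.univ.sigma (fun v => (Finset.Ioc S (2 * S)).filter
      (fun s => ((G (box (j + 1) A v) s).map (Int.castRingHom ℚ)).Separable))
  refine ⟨I.image (fun p => G (box (j + 1) A p.1) p.2), ?_, ?_⟩
  · rw [Finset.card_image_of_injOn]
    · rw [Finset.card_sigma]
      have h1 : ∑ _v : (Fin (j + 1) → Fin A), S ≤ ∑ v : (Fin (j + 1) → Fin A),
          (((Finset.Ioc S (2 * S)).filter
            (fun s => ((G (box (j + 1) A v) s).map (Int.castRingHom ℚ)).Separable)).card + N) := by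
        apply Finset.sum_le_sum
        intro v _
        exact hgood _ (box_par v) _ (fun s _ hs => hs)
      rw [Finset.sum_add_distrib, Finset.sum_const, Finset.sum_const, Finset.card_univ,
        Fintype.card_fun, Fintype.card_fin, Fintype.card_fin, smul_eq_mul, smul_eq_mul] at h1
      exact h1
    · rintro ⟨v, s⟩ hp ⟨w, t⟩ hq heq
      have hp1 : S < s := (Finset.mem_Ioc.1 (Finset.mem_filter.1 (Finset.mem_sigma.1 hp).2).1).1
      have hq1 : S < t := (Finset.mem_Ioc.1 (Finset.mem_filter.1 (Finset.mem_sigma.1 hq).2).1).1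
      obtain ⟨h1, h2⟩ := hinj _ _ _ _ (box_par v) (box_par w) (Nat.zero_lt_of_lt hp1)
        (Nat.zero_lt_of_lt hq1) heq
      have h3 := box_inj h1
      subst h3
      subst h2
      rfl
  · intro f hf
    obtain ⟨⟨v, s⟩, hp, rfl⟩ := Finset.mem_image.1 hf
    simp only [I, Finset.mem_sigma, Finset.mem_filter, Finset.mem_Ioc] at hp
    exact ⟨hp.2.2, _, _, box_par v, hp.2.1.1, hp.2.1.2, rfl⟩

/-- Many polynomials with large integral points: with coefficients at most `K A ^ 4 S ^ 2` there are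
at least `A ^ ((d + 1) / 4) S / 2` polynomials `f` of degree `d` without repeated roots with an
integral point with `x ≥ S ^ 6`. -/
def ManyPoints (d : ℕ) : Prop :=
  ∃ K : ℕ, 0 < K ∧ ∀ A S : ℕ, 1 ≤ A → K ≤ S → ∃ F : Finset ℤ[X],
    A ^ ((d + 1) / 4) * S ≤ 2 * F.card ∧ ∀ f ∈ F, f.natDegree = d ∧
      (f.map (Int.castRingHom ℚ)).Separable ∧ maxCoeff f ≤ K * A ^ 4 * S ^ 2 ∧
      ∃ x y : ℤ, y ^ 2 = f.eval x ∧ (S : ℤ) ^ 6 ≤ x

theorem many_of {j d : ℕ} (hd : (d + 1) / 4 = j + 1) (G : ℤ[X] → ℕ → ℤ[X])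
    (hinj : ∀ (A : ℕ) (b b' : ℤ[X]), ∀ s s' : ℕ, Par j A b → Par j A b' → 0 < s → 0 < s' →
      G b s = G b' s' → b = b' ∧ s = s')
    (hgood : ∀ (A S : ℕ) (b : ℤ[X]), Par j A b → ∀ (P : ℕ → Prop) [DecidablePred P],
      (∀ s : ℕ, 0 < s → ((G b s).map (Int.castRingHom ℚ)).Separable → P s) →
      S ≤ ((Finset.Ioc S (2 * S)).filter P).card + (8 * j + 10))
    (hdeg : ∀ (A : ℕ) (b : ℤ[X]), Par j A b → ∀ s : ℕ, 0 < s → (G b s).natDegree = d)
    (hheight : ∀ (A : ℕ) (b : ℤ[X]), 1 ≤ A → Par j A b → ∀ s : ℕ, 1 ≤ s → ∀ i,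
      ((G b s).coeff i).natAbs ≤ 17 * ((4 * j + 1) ^ 3 * A ^ 4) * s ^ 2)
    (hpoint : ∀ (b : ℤ[X]) (s : ℕ), ∃ y : ℤ, y ^ 2 = (G b s).eval ((s : ℤ) ^ 6)) :
    ManyPoints d := by
  refine ⟨68 * (4 * j + 1) ^ 3 + (16 * j + 20), by positivity, fun A S hA hS => ?_⟩
  obtain ⟨F, hF1, hF2⟩ := count_family S (8 * j + 10) G (hinj A) (hgood A S)
  refine ⟨F, ?_, fun f hf => ?_⟩
  · rw [hd]
    have h1 : A ^ (j + 1) * (16 * j + 20) ≤ A ^ (j + 1) * S :=
      Nat.mul_le_mul le_rfl (by omega)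
    have h2 : A ^ (j + 1) * (16 * j + 20) = 2 * (A ^ (j + 1) * (8 * j + 10)) := by ring
    omega
  · obtain ⟨hsep, b, s, hb, hs1, hs2, rfl⟩ := hF2 f hf
    refine ⟨hdeg A b hb s (by omega), hsep, maxCoeff_le fun i => ?_, ?_⟩
    · refine (hheight A b hA hb s (by omega) i).trans ?_
      calc 17 * ((4 * j + 1) ^ 3 * A ^ 4) * s ^ 2
          ≤ 17 * ((4 * j + 1) ^ 3 * A ^ 4) * (2 * S) ^ 2 := by gcongr
        _ = 68 * (4 * j + 1) ^ 3 * A ^ 4 * S ^ 2 := by ring
        _ ≤ (68 * (4 * j + 1) ^ 3 + (16 * j + 20)) * A ^ 4 * S ^ 2 := by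
          gcongr
          omega
    · obtain ⟨y, hy⟩ := hpoint b s
      refine ⟨(s : ℤ) ^ 6, y, hy, ?_⟩
      have h1 : (S : ℤ) ≤ s := by exact_mod_cast hs1.le
      gcongr

theorem good_aux {R : ℕ → Prop} {S N : ℕ}
    (h : ∀ (Q : ℕ → Prop) [DecidablePred Q], (∀ s : ℕ, R s → Q s) →
      S ≤ ((Finset.Ioc S (2 * S)).filter Q).card + N)
    (P : ℕ → Prop) [DecidablePred P] (hP : ∀ s : ℕ, 0 < s → R s → P s) :
    S ≤ ((Finset.Ioc S (2 * S)).filter P).card + N := by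
  have h1 := h (fun s => s = 0 ∨ P s) (fun s hs => by
    rcases Nat.eq_zero_or_pos s with h | h
    · exact Or.inl h
    · exact Or.inr (hP s h hs))
  have h2 : (Finset.Ioc S (2 * S)).filter (fun s => s = 0 ∨ P s) =
      (Finset.Ioc S (2 * S)).filter P := by
    apply Finset.filter_congr
    intro s hs
    have := (Finset.mem_Ioc.1 hs).1
    constructor
    · rintro (h | h)
      · omega
      · exact h
    · exact Or.inr
  rw [h2] at h1
  exact h1

/-- **Many polynomials with large integral points.** -/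
theorem many_points (d : ℕ) (hd : 3 ≤ d) : ManyPoints d := by
  obtain ⟨j, r, hr, hdr⟩ : ∃ j r : ℕ, r < 4 ∧ d = 4 * j + 3 + r :=
    ⟨(d - 3) / 4, (d - 3) % 4, Nat.mod_lt _ (by norm_num), by omega⟩
  have hdj : (d + 1) / 4 = j + 1 := by omega
  have hXinj : ∀ p q : ℤ[X], X * p = X * q → p = q := fun p q h => mul_left_cancel₀ X_ne_zero h
  have hQ1c : ∀ {A : ℕ} {b : ℤ[X]}, Par j A b → ∀ s : ℕ, 0 < s →
      (Q1 j b ((s : ℤ) ^ 2)).coeff 0 ≠ 0 := by
    intro A b hb s hs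
    rw [Q1_coeff_zero]
    have := hb.pos
    positivity
  have hQ2c : ∀ {A : ℕ} {b : ℤ[X]}, Par j A b → ∀ s : ℕ,
      (Q2 j b ((s : ℤ) ^ 2)).coeff 0 ≠ 0 := by
    intro A b hb s
    rw [Q2_coeff_zero]
    have := hb.pos
    positivity
  obtain rfl | rfl | rfl | rfl : r = 0 ∨ r = 1 ∨ r = 2 ∨ r = 3 := by omega
  · apply many_of hdj (fun b s => Q1 j b ((s : ℤ) ^ 2))
    · intro A b b' s s' hb hb' hs hs' he
      exact Q1_inj hb hb' hs hs' he
    · intro A S b hb P _ hP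
      exact good_aux (fun Q _ hQ => Q1_good hb S Q hQ) P hP
    · intro A b hb s hs
      rw [Q1_natDegree hb, hdr]
    · intro A b hA hb s hs i
      exact Q1_height hb hA hs i
    · intro b s
      exact ⟨_, Q1_point j b s⟩
  · apply many_of hdj (fun b s => X * Q1 j b ((s : ℤ) ^ 2))
    · intro A b b' s s' hb hb' hs hs' he
      exact Q1_inj hb hb' hs hs' (hXinj _ _ he)
    · intro A S b hb P _ hP
      exact good_aux (fun Q _ hQ => Q1_good hb S Q hQ) P
        (fun s hs hsep => hP s hs (X_mul_separable hsep (hQ1c hb s hs)))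
    · intro A b hb s hs
      have := Q1_natDegree hb ((s : ℤ) ^ 2)
      have h0 : Q1 j b ((s : ℤ) ^ 2) ≠ 0 := by
        intro h
        rw [h] at this
        simp at this
      rw [natDegree_X_mul h0, this, hdr]
    · intro A b hA hb s hs i
      rcases i with _ | i
      · simp
      · rw [coeff_X_mul]
        exact Q1_height hb hA hs i
    · intro b s
      refine ⟨(s : ℤ) ^ 3 * ((s : ℤ) ^ (12 * j + 9) +
        2 * b.eval ((s : ℤ) ^ 6) * (s : ℤ) ^ (6 * j + 5) -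
        2 * b.eval ((s : ℤ) ^ 6) ^ 2 * (s : ℤ)), ?_⟩
      rw [mul_pow, Q1_point, eval_mul, eval_X]
      ring
  · apply many_of hdj (fun b s => Q2 j b ((s : ℤ) ^ 2))
    · intro A b b' s s' hb hb' hs hs' he
      exact Q2_inj hb hb' he
    · intro A S b hb P _ hP
      exact good_aux (fun Q _ hQ => Q2_good hb S Q hQ) P hP
    · intro A b hb s hs
      have hs' : ((s : ℤ) ^ 2) ≠ 0 := by positivity
      rw [Q2_natDegree hb hs', hdr]
    · intro A b hA hb s hs i
      exact Q2_height hb hA hs i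
    · intro b s
      exact ⟨_, Q2_point j b s⟩
  · apply many_of hdj (fun b s => X * Q2 j b ((s : ℤ) ^ 2))
    · intro A b b' s s' hb hb' hs hs' he
      exact Q2_inj hb hb' (hXinj _ _ he)
    · intro A S b hb P _ hP
      exact good_aux (fun Q _ hQ => Q2_good hb S Q hQ) P
        (fun s hs hsep => hP s hs (X_mul_separable hsep (hQ2c hb s)))
    · intro A b hb s hs
      have hs' : ((s : ℤ) ^ 2) ≠ 0 := by positivity
      have := Q2_natDegree hb hs'
      have h0 : Q2 j b ((s : ℤ) ^ 2) ≠ 0 := by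
        intro h
        rw [h] at this
        simp at this
      rw [natDegree_X_mul h0, this, hdr]
    · intro A b hA hb s hs i
      rcases i with _ | i
      · simp
      · rw [coeff_X_mul]
        exact Q2_height hb hA hs i
    · intro b s
      refine ⟨(s : ℤ) ^ 3 * (b.eval ((s : ℤ) ^ 6) ^ 2 +
        2 * b.eval ((s : ℤ) ^ 6) * (s : ℤ) ^ (6 * j + 8) -
        2 * (s : ℤ) ^ (12 * j + 16)), ?_⟩
      rw [mul_pow, Q2_point, eval_mul, eval_X]
      ring

end Pool.Agent.U60.HL
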